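import Pool.Agent.Helper75.KS.GoalsB

/-!
# The Kahn-Saks conjecture: the mean deviation and the order probabilities (packet ENE)
-/

namespace Pool.Agent.Helper19.KS

open Finset
open Pool.Agent.Helper75.KS
open Pool.Agent.Helper89.GP (LX po Ex Pr hh Pr_eq_Ex Pr_nonneg Pr_le_one Ex_sum Ex_mono Ex_congr
  Ex_const Ex_add Ex_mul Ex_sub)

theorem po_eq_sum {n : ℕ} (σ : Equiv.Perm (Fin n)) (x : Fin n) :
    (po σ x : ℝ) = ∑ q, (if po σ q < po σ x then (1 : ℝ) else 0) := by
  rw [Finset.sum_boole]
  congr 1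
  have h1 : (univ.filter fun q : Fin n => po σ q < po σ x) =
      (Finset.Iio (σ x)).map σ.symm.toEmbedding := by
    ext q
    simp only [mem_filter, mem_univ, true_and, mem_map, mem_Iio, Equiv.coe_toEmbedding]
    constructor
    · intro h
      exact ⟨σ q, h, by simp⟩
    · rintro ⟨y, hy, rfl⟩
      change σ (σ.symm y) < σ x
      rwa [Equiv.apply_symm_apply]
  rw [h1, Finset.card_map, Fin.card_Iio]
  rfl

theorem ene : EneStmt := by
  intro n R x hne
  have hind : ∀ q, (Pr R fun σ => po σ q < po σ x) =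
      Ex R fun σ => (if po σ q < po σ x then (1 : ℝ) else 0) := fun q => Pr_eq_Ex _
  have hh1 : hh R x = ∑ q, Pr R fun σ => po σ q < po σ x := by
    simp only [hind]
    rw [← Ex_sum]
    unfold Pool.Agent.Helper89.GP.hh
    exact Ex_congr fun σ _ => po_eq_sum σ x
  have h1 : dev R x ≤ Ex R fun σ => ∑ q, |(if po σ q < po σ x then (1 : ℝ) else 0) -
      Pr R fun σ => po σ q < po σ x| := by
    unfold dev
    apply Ex_mono
    intro σ _
    rw [po_eq_sum σ x, hh1, ← Finset.sum_sub_distrib]
    exact Finset.abs_sum_le_sum_abs _ _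
  refine h1.trans (le_of_eq ?_)
  rw [Ex_sum, Finset.mul_sum]
  refine Finset.sum_congr rfl fun q _ => ?_
  have h0 := Pr_nonneg (R := R) fun σ => po σ q < po σ x
  have h2 := Pr_le_one (R := R) fun σ => po σ q < po σ x
  have h3 := hind q
  generalize (Pr R fun σ => po σ q < po σ x) = π at *
  have h4 : (Ex R fun σ => |(if po σ q < po σ x then (1 : ℝ) else 0) - π|) =
      Ex R fun σ => (1 - 2 * π) * (if po σ q < po σ x then (1 : ℝ) else 0) + π := by
    apply Ex_congr
    intro σ _
    split_ifs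
    · rw [abs_of_nonneg (by linarith)]; ring
    · rw [abs_of_nonpos (by linarith)]; ring
  rw [h4, Ex_add, Ex_mul, Ex_const hne, ← h3]
  ring

end Pool.Agent.Helper19.KS
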