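import Pool.Agent.Helper42.KS.Goals

set_option autoImplicit false

namespace Pool.Agent.Helper42.KS.PkSINT

open MeasureTheory Set Filter Topology

/-- indicator of `(0,1]` -/
noncomputable def ch (x : ℝ) : ℝ := Set.indicator (Ioc (0 : ℝ) 1) (fun _ => (1 : ℝ)) x

lemma ch_nonneg (x : ℝ) : 0 ≤ ch x := by
  unfold ch; exact Set.indicator_nonneg (fun _ _ => zero_le_one) x

lemma ch_of_mem {x : ℝ} (h : x ∈ Ioc (0 : ℝ) 1) : ch x = 1 := by
  unfold ch; exact Set.indicator_of_mem h _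

lemma ch_meas : Measurable ch := by
  unfold ch; exact measurable_const.indicator measurableSet_Ioc

lemma ch_int : Integrable ch := by
  unfold ch
  rw [integrable_indicator_iff measurableSet_Ioc]
  exact integrableOn_const (by simp) (by simp)

lemma norm_ee (t : ℝ) : ‖ee t‖ = 1 := by
  unfold ee; exact Complex.norm_exp_ofReal_mul_I _

lemma ee_cont : Continuous ee := by
  unfold ee; fun_prop

/-- one dimensional integrand -/
noncomputable def g (k : ℕ) (B x : ℝ) : ℂ := (ch x : ℂ) * ee (B * x ^ k + 0 * x)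

lemma norm_g (k : ℕ) (B x : ℝ) : ‖g k B x‖ = ch x := by
  unfold g
  rw [norm_mul, norm_ee, mul_one, Complex.norm_real, Real.norm_of_nonneg (ch_nonneg x)]

lemma VV_eq (k : ℕ) (B : ℝ) : VV k B 0 = ∫ x, g k B x := by
  unfold VV
  rw [intervalIntegral.integral_of_le zero_le_one, ← integral_indicator measurableSet_Ioc]
  congr 1
  ext x
  unfold g ch
  by_cases h : x ∈ Ioc (0 : ℝ) 1
  · simp [Set.indicator_of_mem h]
  · simp [Set.indicator_of_notMem h]

lemma VV_pow (k d : ℕ) (B : ℝ) : VV k B 0 ^ d = ∫ s : Fin d → ℝ, ∏ i, g k B (s i) := by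
  rw [integral_fintype_prod_volume_eq_pow (fun x => g k B x), Fintype.card_fin, VV_eq]

/-- the gaussian -/
lemma gauss (η t : ℝ) (hη : 0 < η) :
    ∫ B : ℝ, ee (B * t) * (Real.exp (-(Real.pi * η ^ 2 * B ^ 2)) : ℂ) =
      ((η⁻¹ * Real.exp (-(Real.pi * t ^ 2 / η ^ 2)) : ℝ) : ℂ) := by
  have hb : 0 < ((Real.pi * η ^ 2 : ℝ) : ℂ).re := by
    rw [Complex.ofReal_re]; positivity
  have h := fourierIntegral_gaussian hb ((2 * Real.pi * t : ℝ) : ℂ)
  have e1 : (fun B : ℝ => ee (B * t) * (Real.exp (-(Real.pi * η ^ 2 * B ^ 2)) : ℂ)) =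
      fun x : ℝ => Complex.exp (Complex.I * ((2 * Real.pi * t : ℝ) : ℂ) * x) *
        Complex.exp (-((Real.pi * η ^ 2 : ℝ) : ℂ) * x ^ 2) := by
    ext B
    unfold ee
    rw [Complex.ofReal_exp]
    congr 2
    · push_cast; ring
    · push_cast; ring
  rw [e1, h]
  have hpi : (0 : ℝ) < Real.pi := Real.pi_pos
  have e2 : ((Real.pi : ℂ) / ((Real.pi * η ^ 2 : ℝ) : ℂ)) = (((η⁻¹) ^ 2 : ℝ) : ℂ) := by
    rw [← Complex.ofReal_div]
    congr 1
    field_simp
  have e3 : ((((η⁻¹) ^ 2 : ℝ) : ℂ)) ^ (1 / 2 : ℂ) = ((η⁻¹ : ℝ) : ℂ) := by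
    have : (1 / 2 : ℂ) = ((1 / 2 : ℝ) : ℂ) := by push_cast; rfl
    rw [this, ← Complex.ofReal_cpow (by positivity)]
    congr 1
    rw [← Real.sqrt_eq_rpow, Real.sqrt_sq (by positivity)]
  rw [e2, e3, Complex.ofReal_mul η⁻¹ _, Complex.ofReal_exp]
  congr 2
  push_cast
  have h1 : (Real.pi : ℂ) ≠ 0 := by exact_mod_cast hpi.ne'
  have h2 : (η : ℂ) ≠ 0 := by exact_mod_cast hη.ne'
  field_simp
  ring

/-- the volume bound -/
lemma vol_lower (n k : ℕ) (hk : 1 ≤ k) (u η τ : ℝ) (hτ : 0 < τ) (hτ1 : τ ≤ 1)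
    (hτk : τ ^ k = 1 / (2 * (n + 1 : ℝ))) (hη : 0 < η) (hη2 : η / k < τ) (hu : 1 / 2 ≤ u)
    (hu1 : u ≤ 1) :
    ENNReal.ofReal (τ ^ n * (η / k)) ≤
      volume {s : Fin (n + 1) → ℝ | (∀ i, s i ∈ Ioc (0 : ℝ) 1) ∧ |∑ i, s i ^ k - u| ≤ η} := by
  classical
  have hk0 : (0 : ℝ) < k := by exact_mod_cast hk
  set M : (Fin n → ℝ) → ℝ := fun y => (u - ∑ i, y i ^ k) ^ (1 / (k : ℝ)) with hM
  have hMm : Measurable M := by
    rw [hM]; fun_prop
  set Bs : Set (ℝ × (Fin n → ℝ)) := {z | z.2 ∈ Set.pi univ (fun _ : Fin n => Ioc (0 : ℝ) τ) ∧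
    M z.2 - η / k ≤ z.1 ∧ z.1 ≤ M z.2} with hBs
  have hpim : MeasurableSet (Set.pi univ (fun _ : Fin n => Ioc (0 : ℝ) τ)) :=
    MeasurableSet.univ_pi (fun _ => measurableSet_Ioc)
  have hBm : MeasurableSet Bs := by
    rw [hBs]
    refine MeasurableSet.inter ?_ (MeasurableSet.inter ?_ ?_)
    · exact measurable_snd hpim
    · exact measurableSet_le ((hMm.comp measurable_snd).sub_const _) measurable_fst
    · exact measurableSet_le measurable_fst (hMm.comp measurable_snd)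
  have hvB : volume Bs = ENNReal.ofReal (τ ^ n * (η / k)) := by
    rw [Measure.volume_eq_prod, Measure.prod_apply_symm hBm]
    have e : (fun y : Fin n → ℝ => volume ((fun x : ℝ => (x, y)) ⁻¹' Bs)) =
        Set.indicator (Set.pi univ (fun _ : Fin n => Ioc (0 : ℝ) τ))
          (fun _ => ENNReal.ofReal (η / k)) := by
      ext y
      by_cases hy : y ∈ Set.pi univ (fun _ : Fin n => Ioc (0 : ℝ) τ)
      · rw [Set.indicator_of_mem hy]
        have : (fun x : ℝ => (x, y)) ⁻¹' Bs = Icc (M y - η / k) (M y) := by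
          ext x
          simp only [hBs, mem_preimage, mem_ofPred_eq, mem_Icc]
          exact ⟨fun h => h.2, fun h => ⟨hy, h⟩⟩
        rw [this, Real.volume_Icc]
        congr 1
        ring
      · rw [Set.indicator_of_notMem hy]
        have : (fun x : ℝ => (x, y)) ⁻¹' Bs = ∅ := by
          ext x
          simp only [hBs, mem_preimage, mem_ofPred_eq, mem_empty_iff_false, iff_false]
          exact fun h => hy h.1
        rw [this, measure_empty]
    rw [e, lintegral_indicator hpim, setLIntegral_const, volume_pi_pi]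
    simp only [Real.volume_Ioc, sub_zero, Finset.prod_const, Finset.card_univ, Fintype.card_fin]
    rw [← ENNReal.ofReal_pow hτ.le, ← ENNReal.ofReal_mul (by positivity)]
    congr 1
    ring
  rw [← hvB]
  have hmp := volume_preserving_piFinSuccAbove (fun _ : Fin (n + 1) => ℝ) 0
  rw [← hmp.measure_preimage hBm.nullMeasurableSet]
  refine measure_mono ?_
  intro s hs
  simp only [mem_preimage] at hs
  have hs1 : (MeasurableEquiv.piFinSuccAbove (fun _ : Fin (n + 1) => ℝ) 0) s =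
      (s 0, fun j => s (Fin.succ j)) := by
    rfl
  rw [hs1] at hs
  obtain ⟨h1, h2, h3⟩ := hs
  simp only at h1 h2 h3
  rw [Set.mem_pi] at h1
  have hy : ∀ j : Fin n, s (Fin.succ j) ∈ Ioc (0 : ℝ) τ := fun j => h1 j (mem_univ _)
  set m : ℝ := u - ∑ j : Fin n, s (Fin.succ j) ^ k with hm
  have hsum : ∑ j : Fin n, s (Fin.succ j) ^ k ≤ n * (1 / (2 * (n + 1 : ℝ))) := by
    calc ∑ j : Fin n, s (Fin.succ j) ^ k ≤ ∑ j : Fin n, τ ^ k :=
          Finset.sum_le_sum fun j _ => pow_le_pow_left₀ (hy j).1.le (hy j).2 k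
      _ = n * (1 / (2 * (n + 1 : ℝ))) := by simp [hτk]
  have hsum0 : 0 ≤ ∑ j : Fin n, s (Fin.succ j) ^ k :=
    Finset.sum_nonneg fun j _ => pow_nonneg (hy j).1.le k
  have hn1 : (0 : ℝ) < n + 1 := by positivity
  have hmτ : τ ^ k ≤ m := by
    have : (n : ℝ) * (1 / (2 * (n + 1 : ℝ))) + 1 / (2 * (n + 1 : ℝ)) = 1 / 2 := by
      field_simp
    rw [hτk, hm]; linarith
  have hm0 : 0 < m := lt_of_lt_of_le (by positivity) hmτ
  have hm1 : m ≤ 1 := by rw [hm]; linarith
  have hMk : (M fun j => s (Fin.succ j)) ^ k = m := by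
    simp only [hM]
    rw [← hm, ← Real.rpow_natCast, ← Real.rpow_mul hm0.le]
    rw [one_div_mul_cancel hk0.ne', Real.rpow_one]
  set Mv := (M fun j => s (Fin.succ j)) with hMv
  have hMv0 : 0 ≤ Mv := by
    rw [hMv]; simp only [hM]; exact Real.rpow_nonneg (by rw [← hm]; exact hm0.le) _
  have hMτ : τ ≤ Mv := by
    refine le_of_pow_le_pow_left₀ (by omega : k ≠ 0) hMv0 ?_
    rw [hMk]; exact hmτ
  have hMv1 : Mv ≤ 1 := by
    refine le_of_pow_le_pow_left₀ (by omega : k ≠ 0) zero_le_one ?_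
    rw [hMk, one_pow]; exact hm1
  have hs0pos : 0 < s 0 := by linarith
  refine ⟨?_, ?_⟩
  · intro i
    refine Fin.cases ?_ ?_ i
    · exact ⟨hs0pos, h3.trans hMv1⟩
    · intro j
      exact ⟨(hy j).1, (hy j).2.trans hτ1⟩
  · rw [Fin.sum_univ_succ]
    have e : s 0 ^ k + ∑ j : Fin n, s (Fin.succ j) ^ k - u = s 0 ^ k - Mv ^ k := by
      rw [hMk, hm]; ring
    rw [e, abs_sub_comm, abs_of_nonneg (sub_nonneg.2 (pow_le_pow_left₀ hs0pos.le h3 k))]
    have hgeom : Mv ^ k - s 0 ^ k ≤ k * (Mv - s 0) := by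
      have := Commute.geom_sum₂_mul (Commute.all Mv (s 0)) k
      rw [← this]
      have hle : ∑ i ∈ Finset.range k, Mv ^ i * s 0 ^ (k - 1 - i) ≤ k := by
        calc ∑ i ∈ Finset.range k, Mv ^ i * s 0 ^ (k - 1 - i)
            ≤ ∑ i ∈ Finset.range k, (1 : ℝ) := by
              refine Finset.sum_le_sum fun i _ => ?_
              exact mul_le_one₀ (pow_le_one₀ hMv0 hMv1) (pow_nonneg hs0pos.le _)
                (pow_le_one₀ hs0pos.le (h3.trans hMv1))
          _ = k := by simp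
      exact mul_le_mul_of_nonneg_right hle (by linarith)
    have : k * (Mv - s 0) ≤ η := by
      have h4 : Mv - s 0 ≤ η / k := by linarith
      calc (k : ℝ) * (Mv - s 0) ≤ k * (η / k) := mul_le_mul_of_nonneg_left h4 hk0.le
        _ = η := by field_simp
    linarith


lemma prod_ch_nonneg {d : ℕ} (s : Fin d → ℝ) : 0 ≤ ∏ i, ch (s i) :=
  Finset.prod_nonneg fun i _ => ch_nonneg _

lemma prod_ch_int (d : ℕ) : Integrable (fun s : Fin d → ℝ => ∏ i, ch (s i)) :=
  Integrable.fintype_prod (f := fun _ : Fin d => ch) (fun _ => ch_int)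

lemma g_meas (k : ℕ) : Measurable (fun z : ℝ × ℝ => g k z.1 z.2) := by
  unfold g
  have h1 : Measurable (fun z : ℝ × ℝ => ((ch z.2 : ℝ) : ℂ)) :=
    Complex.measurable_ofReal.comp (ch_meas.comp measurable_snd)
  have h2 : Measurable (fun z : ℝ × ℝ => ee (z.1 * z.2 ^ k + 0 * z.2)) :=
    ee_cont.measurable.comp (by fun_prop)
  exact h1.mul h2

lemma VV_meas (k : ℕ) : AEStronglyMeasurable (fun B : ℝ => VV k B 0) volume := by
  have h : (fun B : ℝ => VV k B 0) = fun B => ∫ x, g k B x := by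
    ext B; exact VV_eq k B
  rw [h]
  exact ((g_meas k).stronglyMeasurable.integral_prod_right').aestronglyMeasurable

/-- the regularised integrand -/
noncomputable def Hh (k d : ℕ) (u η : ℝ) (B : ℝ) (s : Fin d → ℝ) : ℂ :=
  ee (-(u * B)) * (Real.exp (-(Real.pi * η ^ 2 * B ^ 2)) : ℂ) * ∏ i, g k B (s i)

lemma norm_Hh (k d : ℕ) (u η B : ℝ) (s : Fin d → ℝ) :
    ‖Hh k d u η B s‖ = Real.exp (-(Real.pi * η ^ 2 * B ^ 2)) * ∏ i, ch (s i) := by
  unfold Hh
  rw [norm_mul, norm_mul, norm_ee, one_mul, Complex.norm_real,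
    Real.norm_of_nonneg (Real.exp_pos _).le, norm_prod]
  congr 1
  exact Finset.prod_congr rfl fun i _ => norm_g _ _ _

lemma gauss_int (η : ℝ) (hη : 0 < η) :
    Integrable (fun B : ℝ => Real.exp (-(Real.pi * η ^ 2 * B ^ 2))) := by
  have h := integrable_exp_neg_mul_sq (b := Real.pi * η ^ 2) (by positivity)
  refine h.congr (Filter.Eventually.of_forall fun x => ?_)
  simp only
  congr 1
  ring

lemma Hh_int (k d : ℕ) (u η : ℝ) (hη : 0 < η) :
    Integrable (Function.uncurry (Hh k d u η)) (volume.prod volume) := by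
  have h1 := (gauss_int η hη).mul_prod (prod_ch_int d)
  refine h1.mono' ?_ (Filter.Eventually.of_forall fun z => ?_)
  · apply Measurable.aestronglyMeasurable
    unfold Function.uncurry Hh
    refine Measurable.mul (Measurable.mul ?_ ?_) ?_
    · exact ee_cont.measurable.comp (by fun_prop)
    · exact Complex.measurable_ofReal.comp (by fun_prop)
    · refine Finset.measurable_prod _ fun i _ => ?_
      have : Measurable (fun z : ℝ × (Fin d → ℝ) => (z.1, z.2 i)) := by fun_prop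
      exact (g_meas k).comp this
  · unfold Function.uncurry
    rw [norm_Hh]

lemma prod_ee {d : ℕ} (f : Fin d → ℝ) : ∏ i, ee (f i) = ee (∑ i, f i) := by
  unfold ee
  rw [← Complex.exp_sum]
  congr 1
  push_cast
  rw [Finset.mul_sum, Finset.sum_mul]

lemma ee_mul (a b : ℝ) : ee a * ee b = ee (a + b) := by
  unfold ee
  rw [← Complex.exp_add]
  congr 1
  push_cast
  ring

lemma Hh_inner (k d : ℕ) (u η : ℝ) (hη : 0 < η) (s : Fin d → ℝ) :
    ∫ B, Hh k d u η B s = (((∏ i, ch (s i)) *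
      (η⁻¹ * Real.exp (-(Real.pi * (∑ i, s i ^ k - u) ^ 2 / η ^ 2))) : ℝ) : ℂ) := by
  have e : (fun B => Hh k d u η B s) = fun B => ((∏ i, ch (s i) : ℝ) : ℂ) *
      (ee (B * (∑ i, s i ^ k - u)) * (Real.exp (-(Real.pi * η ^ 2 * B ^ 2)) : ℂ)) := by
    ext B
    unfold Hh g
    rw [Finset.prod_mul_distrib, prod_ee]
    have h2 : ee (-(u * B)) * ee (∑ i, (B * s i ^ k + 0 * s i)) = ee (B * (∑ i, s i ^ k - u)) := by
      rw [ee_mul]
      congr 1
      simp only [zero_mul, add_zero]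
      rw [← Finset.mul_sum]
      ring
    rw [← h2]
    push_cast
    ring
  rw [e, integral_const_mul, gauss _ _ hη, ← Complex.ofReal_mul]

lemma key (k d : ℕ) (u η : ℝ) (hη : 0 < η) :
    ∫ B : ℝ, ee (-(u * B)) * (VV k B 0) ^ d * (Real.exp (-(Real.pi * η ^ 2 * B ^ 2)) : ℂ) =
      ((∫ s : Fin d → ℝ, (∏ i, ch (s i)) *
      (η⁻¹ * Real.exp (-(Real.pi * (∑ i, s i ^ k - u) ^ 2 / η ^ 2))) : ℝ) : ℂ) := by
  have e : (fun B : ℝ => ee (-(u * B)) * (VV k B 0) ^ d *
      (Real.exp (-(Real.pi * η ^ 2 * B ^ 2)) : ℂ)) = fun B => ∫ s, Hh k d u η B s := by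
    ext B
    unfold Hh
    rw [integral_const_mul, ← VV_pow]
    ring
  rw [e, integral_integral_swap (Hh_int k d u η hη)]
  rw [← integral_complex_ofReal]
  congr 1
  ext s
  exact Hh_inner k d u η hη s

lemma F_int (k d : ℕ) (u η : ℝ) (hη : 0 < η) : Integrable (fun s : Fin d → ℝ =>
    (∏ i, ch (s i)) * (η⁻¹ * Real.exp (-(Real.pi * (∑ i, s i ^ k - u) ^ 2 / η ^ 2)))) := by
  refine ((prod_ch_int d).mul_const (η⁻¹)).mono' ?_ (Filter.Eventually.of_forall fun s => ?_)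
  · refine (Measurable.aestronglyMeasurable ?_)
    refine Measurable.mul (Finset.measurable_prod _ fun i _ => ?_) (by fun_prop)
    exact ch_meas.comp (measurable_pi_apply i)
  · rw [Real.norm_of_nonneg (mul_nonneg (prod_ch_nonneg s) (by positivity))]
    refine mul_le_mul_of_nonneg_left ?_ (prod_ch_nonneg s)
    refine mul_le_of_le_one_right (by positivity) ?_
    rw [Real.exp_le_one_iff, neg_nonpos]
    have := Real.pi_pos
    positivity

lemma F_lower (n k : ℕ) (hk : 1 ≤ k) (u η τ : ℝ) (hτ : 0 < τ) (hτ1 : τ ≤ 1)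
    (hτk : τ ^ k = 1 / (2 * (n + 1 : ℝ))) (hη : 0 < η) (hη2 : η / k < τ) (hu : 1 / 2 ≤ u)
    (hu1 : u ≤ 1) :
    Real.exp (-Real.pi) * (τ ^ n / k) ≤ ∫ s : Fin (n + 1) → ℝ, (∏ i, ch (s i)) *
      (η⁻¹ * Real.exp (-(Real.pi * (∑ i, s i ^ k - u) ^ 2 / η ^ 2))) := by
  have hk0 : (0 : ℝ) < k := by exact_mod_cast hk
  set A : Set (Fin (n + 1) → ℝ) :=
    {s | (∀ i, s i ∈ Ioc (0 : ℝ) 1) ∧ |∑ i, s i ^ k - u| ≤ η} with hA
  have hAm : MeasurableSet A := by
    have hA' : A = Set.pi univ (fun _ : Fin (n + 1) => Ioc (0 : ℝ) 1) ∩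
        {s : Fin (n + 1) → ℝ | |∑ i, s i ^ k - u| ≤ η} := by
      ext s
      rw [hA, mem_inter_iff, Set.mem_pi]
      exact ⟨fun h => ⟨fun i _ => h.1 i, h.2⟩, fun h => ⟨fun i => h.1 i (mem_univ _), h.2⟩⟩
    rw [hA']
    refine MeasurableSet.inter (MeasurableSet.univ_pi (fun _ => measurableSet_Ioc)) ?_
    have hf : Measurable (fun s : Fin (n + 1) → ℝ => |∑ i, s i ^ k - u|) := by fun_prop
    exact measurableSet_le hf measurable_const
  have hvol := vol_lower n k hk u η τ hτ hτ1 hτk hη hη2 hu hu1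
  have hAfin : volume A ≠ ⊤ := by
    have hsub : A ⊆ Set.pi univ (fun _ : Fin (n + 1) => Ioc (0 : ℝ) 1) := by
      intro s hs i _
      exact hs.1 i
    refine ne_top_of_le_ne_top ?_ (measure_mono hsub)
    rw [volume_pi_pi]
    simp
  have hreal : τ ^ n * (η / k) ≤ volume.real A := by
    rw [measureReal_def]
    rw [← ENNReal.ofReal_le_iff_le_toReal hAfin]
    exact hvol
  have hπ := Real.pi_pos
  calc Real.exp (-Real.pi) * (τ ^ n / k)
      = (η⁻¹ * Real.exp (-Real.pi)) * (τ ^ n * (η / k)) := by field_simp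
    _ ≤ (η⁻¹ * Real.exp (-Real.pi)) * volume.real A :=
        mul_le_mul_of_nonneg_left hreal (by positivity)
    _ = ∫ s in A, (η⁻¹ * Real.exp (-Real.pi)) := by
        rw [setIntegral_const, smul_eq_mul, mul_comm]
    _ ≤ ∫ s in A, (∏ i, ch (s i)) *
      (η⁻¹ * Real.exp (-(Real.pi * (∑ i, s i ^ k - u) ^ 2 / η ^ 2))) := by
        refine setIntegral_mono_on (integrableOn_const hAfin enorm_ne_top)
          (F_int k (n + 1) u η hη).integrableOn hAm ?_
        intro s hs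
        have h1 : ∏ i, ch (s i) = 1 := Finset.prod_eq_one fun i _ => ch_of_mem (hs.1 i)
        rw [h1, one_mul]
        refine mul_le_mul_of_nonneg_left ?_ (by positivity)
        rw [Real.exp_le_exp, neg_le_neg_iff]
        have h2 : (∑ i, s i ^ k - u) ^ 2 ≤ η ^ 2 := by
          rw [← sq_abs]
          exact pow_le_pow_left₀ (abs_nonneg _) hs.2 2
        rw [div_le_iff₀ (by positivity)]
        exact mul_le_mul_of_nonneg_left h2 hπ.le
    _ ≤ ∫ s : Fin (n + 1) → ℝ, (∏ i, ch (s i)) *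
      (η⁻¹ * Real.exp (-(Real.pi * (∑ i, s i ^ k - u) ^ 2 / η ^ 2))) := by
        refine setIntegral_le_integral (F_int k (n + 1) u η hη) ?_
        refine Filter.Eventually.of_forall fun s => ?_
        exact mul_nonneg (prod_ch_nonneg s) (by positivity)

theorem thm : G_V1 → G_SINT := by
  intro hV1 k d hk hd
  obtain ⟨C, hC⟩ := hV1 k hk
  obtain ⟨n, rfl⟩ : ∃ n, d = n + 1 := ⟨d - 1, by omega⟩
  have hk1 : 1 ≤ k := by omega
  have hk0 : (0 : ℝ) < k := by exact_mod_cast hk1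
  set τ : ℝ := (1 / (2 * (n + 1 : ℝ))) ^ (1 / (k : ℝ)) with hτdef
  have hb0 : (0 : ℝ) < 1 / (2 * (n + 1 : ℝ)) := by positivity
  have hb1 : 1 / (2 * (n + 1 : ℝ)) ≤ 1 := by
    rw [div_le_one (by positivity)]
    have : (0 : ℝ) ≤ n := Nat.cast_nonneg n
    linarith
  have hτ : 0 < τ := Real.rpow_pos_of_pos hb0 _
  have hτ1 : τ ≤ 1 := Real.rpow_le_one hb0.le hb1 (by positivity)
  have hτk : τ ^ k = 1 / (2 * (n + 1 : ℝ)) := by
    rw [hτdef, ← Real.rpow_natCast, ← Real.rpow_mul hb0.le, one_div_mul_cancel hk0.ne',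
      Real.rpow_one]
  refine ⟨Real.exp (-Real.pi) * (τ ^ n / k), by positivity, ?_⟩
  intro u hu hu1
  have hC0 : 0 ≤ C := by
    have h := hC 0 0
    simp only [abs_zero, add_zero, Real.one_rpow, mul_one] at h
    exact (norm_nonneg _).trans h
  have hlim : Tendsto (fun m : ℕ => ∫ B : ℝ, ee (-(u * B)) * (VV k B 0) ^ (n + 1) *
      (Real.exp (-(Real.pi * ((1 : ℝ) / (m + 1)) ^ 2 * B ^ 2)) : ℂ)) atTop
      (𝓝 (∫ B : ℝ, ee (-(u * B)) * (VV k B 0) ^ (n + 1))) := by
    refine tendsto_integral_of_dominated_convergence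
      (fun B => C ^ (n + 1) * (1 + ‖B‖) ^ (-(((n + 1 : ℕ) : ℝ) / k))) ?_ ?_ ?_ ?_
    · intro m
      refine AEStronglyMeasurable.mul (AEStronglyMeasurable.mul ?_ ((VV_meas k).pow _)) ?_
      · exact (ee_cont.comp (by fun_prop)).aestronglyMeasurable
      · exact (Complex.continuous_ofReal.comp (by fun_prop)).aestronglyMeasurable
    · refine Integrable.const_mul ?_ _
      refine integrable_one_add_norm ?_
      rw [Module.finrank_self, Nat.cast_one, lt_div_iff₀ hk0, one_mul]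
      exact_mod_cast (by omega : k < n + 1)
    · intro m
      refine Filter.Eventually.of_forall fun B => ?_
      rw [norm_mul, norm_mul, norm_ee, one_mul, norm_pow, Complex.norm_real,
        Real.norm_of_nonneg (Real.exp_pos _).le]
      have h1 : Real.exp (-(Real.pi * ((1 : ℝ) / (m + 1)) ^ 2 * B ^ 2)) ≤ 1 := by
        rw [Real.exp_le_one_iff, neg_nonpos]
        have := Real.pi_pos
        positivity
      have h2 : ‖VV k B 0‖ ^ (n + 1) ≤ C ^ (n + 1) * (1 + ‖B‖) ^ (-(((n + 1 : ℕ) : ℝ) / k)) := by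
        calc ‖VV k B 0‖ ^ (n + 1) ≤ (C * (1 + |B|) ^ (-(1 / (k : ℝ)))) ^ (n + 1) :=
              pow_le_pow_left₀ (norm_nonneg _) (hC B 0) _
          _ = C ^ (n + 1) * (1 + ‖B‖) ^ (-(((n + 1 : ℕ) : ℝ) / k)) := by
              rw [mul_pow, Real.norm_eq_abs, ← Real.rpow_natCast (_ ^ _) (n + 1),
                ← Real.rpow_mul (by positivity)]
              congr 2
              ring
      calc ‖VV k B 0‖ ^ (n + 1) * Real.exp (-(Real.pi * ((1 : ℝ) / (m + 1)) ^ 2 * B ^ 2))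
          ≤ ‖VV k B 0‖ ^ (n + 1) * 1 := mul_le_mul_of_nonneg_left h1 (by positivity)
        _ ≤ _ := by rw [mul_one]; exact h2
    · refine Filter.Eventually.of_forall fun B => ?_
      have h1 : Tendsto (fun m : ℕ => Real.exp (-(Real.pi * ((1 : ℝ) / (m + 1)) ^ 2 * B ^ 2)))
          atTop (𝓝 (Real.exp (-(Real.pi * (0 : ℝ) ^ 2 * B ^ 2)))) := by
        have h0 : Tendsto (fun m : ℕ => (1 : ℝ) / (m + 1)) atTop (𝓝 0) :=
          tendsto_one_div_add_atTop_nhds_zero_nat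
        have hc : Continuous (fun x : ℝ => Real.exp (-(Real.pi * x ^ 2 * B ^ 2))) := by fun_prop
        exact (hc.tendsto 0).comp h0
      have h2 : Real.exp (-(Real.pi * (0 : ℝ) ^ 2 * B ^ 2)) = 1 := by simp
      rw [h2] at h1
      have h3 : Tendsto (fun m : ℕ => ee (-(u * B)) * (VV k B 0) ^ (n + 1) *
          ((Real.exp (-(Real.pi * ((1 : ℝ) / (m + 1)) ^ 2 * B ^ 2)) : ℝ) : ℂ)) atTop
          (𝓝 (ee (-(u * B)) * (VV k B 0) ^ (n + 1) * ((1 : ℝ) : ℂ))) :=
        Tendsto.const_mul _ ((Complex.continuous_ofReal.tendsto _).comp h1)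
      simpa using h3
  have hre := (Complex.continuous_re.tendsto _).comp hlim
  refine ge_of_tendsto hre ?_
  obtain ⟨m0, hm0⟩ := exists_nat_gt (1 / (k * τ))
  filter_upwards [eventually_ge_atTop m0] with m hm
  simp only [Function.comp]
  have hη : (0 : ℝ) < 1 / ((m : ℝ) + 1) := by positivity
  rw [key k (n + 1) u _ hη, Complex.ofReal_re]
  refine F_lower n k hk1 u _ τ hτ hτ1 hτk hη ?_ hu hu1
  have hmm : 1 / (k * τ) < (m : ℝ) + 1 := by
    have : (m0 : ℝ) ≤ m := by exact_mod_cast hm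
    linarith
  rw [div_lt_iff₀ (by positivity)] at hmm
  rw [div_div, div_lt_iff₀ (by positivity)]
  nlinarith

end Pool.Agent.Helper42.KS.PkSINT
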